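import Pool.Agent.H5.NOAT.Mem
import Pool.Agent.H22.M.Atv

/-!
# No atoms of the last V-level: the class

`atvS`: `AtvS` holds in every nonempty class: if the labels at another
time are few bits given the exact point, then the fall of `v` is bounded by the exactness of the
positions `(y, z)` at a later window.
-/

set_option autoImplicit false

namespace Pool.NOA

open Finset Real MvPolynomial
open Pool.Agent.H49.Ent Pool.Agent.H32.Dense Pool.STK Pool.KA Pool.KSAT Pool.K2S Pool.PB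
  Pool.STAT Pool.GEN Pool.M3F Pool.KM7 Pool.S6C Pool.JPN
open Pool.PM (nx nt lev lfv VPl VPlS AtvS)
open Pool.PLN (pA H2S)

variable {m J : ℕ}

/-- **The fall of `v` is bounded** by the exactness of `(y, z)` at a later window. -/
theorem atvS {S : PCl m} {c : ℕ → Fin m} (hne : S.Ne)
    (hpos : ∀ (τ : ℝ) (J : ℕ) (F : Fam m J) (A : F.Ω → Prop), S.St τ J F A → 0 < Pe F.p A) :
    AtvS S c := by
  intro w₂ b ρ hw2 hw21 hρ hex
  obtain ⟨τ₂, hτ₂, J₂, hEx⟩ := hex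
  refine ⟨τ₂ / 16, by positivity, ?_⟩
  intro w₀ w₁ e y mv C s β hw0 hw01 hw12 he hH2 hV hC hs hCy hCs
  obtain ⟨κ, hκ, τV, hτV, JV, hVm⟩ := hV s hs hCy hCs
  obtain ⟨τH, hτH, JH, hHm⟩ := hH2 (τ₂ / 16) (by positivity)
  have hl2 : 0 < Real.log 2 := Real.log_pos one_lt_two
  obtain ⟨τ, hτ⟩ : ∃ τ, τ = min τV (min (τH / 2) (τ₂ / 4)) := ⟨_, rfl⟩
  have hτ0 : 0 < τ := by
    rw [hτ]
    exact lt_min hτV (lt_min (by positivity) (by positivity))
  have hτ1 : τ ≤ τV := by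
    rw [hτ]
    exact min_le_left _ _
  have hτ2 : τ ≤ τH / 2 := by
    rw [hτ]
    exact (min_le_right _ _).trans (min_le_left _ _)
  have hτ3 : τ ≤ τ₂ / 4 := by
    rw [hτ]
    exact (min_le_right _ _).trans (min_le_right _ _)
  -- large resolutions
  have hlim : ∀ a x : ℝ, 0 < a → 0 < x → ∃ J₀ : ℕ, ∀ J : ℕ, J₀ ≤ J →
      Real.exp (-(a * J)) ≤ x := by
    intro a x ha hx
    obtain ⟨J₀, hJ₀⟩ := exists_nat_gt (-(Real.log x) / a)
    refine ⟨J₀, fun J hJ => ?_⟩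
    have h1 : (J₀ : ℝ) ≤ J := by exact_mod_cast hJ
    rw [div_lt_iff₀ ha] at hJ₀
    have h2 : (J₀ : ℝ) * a ≤ J * a := mul_le_mul_of_nonneg_right h1 ha.le
    rw [← Real.le_log_iff_exp_le hx]
    linarith
  obtain ⟨Ja, hJa⟩ := hlim (τH / 2) κ (by positivity) hκ
  obtain ⟨Jb, hJb⟩ := hlim (τ₂ / 4) (κ / 2) (by positivity) (by positivity)
  obtain ⟨Jc, hJc⟩ := exists_nat_gt (9 / ρ)
  obtain ⟨J, hJ, F, A, hSt⟩ := hne τ hτ0 (max J₂ (max JV (max JH (max Ja (max Jb (Jc + 1))))))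
  have j1 : J₂ ≤ J := (le_max_left _ _).trans hJ
  have hJ' := (le_max_right _ _).trans hJ
  have j2 : JV ≤ J := (le_max_left _ _).trans hJ'
  have hJ'' := (le_max_right _ _).trans hJ'
  have j3 : JH ≤ J := (le_max_left _ _).trans hJ''
  have hJ3 := (le_max_right _ _).trans hJ''
  have j4 : Ja ≤ J := (le_max_left _ _).trans hJ3
  have hJ4 := (le_max_right _ _).trans hJ3
  have j5 : Jb ≤ J := (le_max_left _ _).trans hJ4
  have j6 : Jc + 1 ≤ J := (le_max_right _ _).trans hJ4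
  have hJr : (0 : ℝ) < J := by
    have h1 : ((Jc + 1 : ℕ) : ℝ) ≤ J := by exact_mod_cast j6
    push_cast at h1
    have h2 : (0 : ℝ) ≤ Jc := Nat.cast_nonneg _
    linarith
  have hρJ : 9 ≤ ρ * J := by
    have h1 : ((Jc + 1 : ℕ) : ℝ) ≤ J := by exact_mod_cast j6
    push_cast at h1
    rw [div_lt_iff₀ hρ] at hJc
    nlinarith
  obtain ⟨A', g, V₀, V₁, P, z₀, z₀', z₁, z₁', lf, E, hA'A, hκA, hg, hgJ, H⟩ :=
    hVm J j2 F A (S.mono hτ1 hSt)
  have hA : 0 < Pe F.p A := hpos _ J F A hSt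
  have hA' : 0 < Pe F.p A' := lt_of_lt_of_le (by positivity) hκA
  have hSA' : S.St τH J F A' := by
    refine S.mono (by linarith : τ + τH / 2 ≤ τH) (S.res (by positivity) hSt hA'A ?_)
    exact (mul_le_mul_of_nonneg_right (hJa J j4) hA.le).trans hκA
  have hH' := hHm J j3 F A' hSA' V₁ z₁ z₁' H.cls₁
  have hWW : ⌊w₀ * J⌋₊ ≤ ⌊w₁ * J⌋₊ :=
    Nat.floor_le_floor (mul_le_mul_of_nonneg_right hw01 hJr.le)
  have hWW' : ⌊w₁ * J⌋₊ ≤ ⌊w₂ * J⌋₊ :=
    Nat.floor_le_floor (mul_le_mul_of_nonneg_right hw12 hJr.le)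
  have hWJ : ⌊w₂ * J⌋₊ ≤ J := by
    have h1 : ⌊w₂ * J⌋₊ ≤ ⌊(1 : ℝ) * J⌋₊ :=
      Nat.floor_le_floor (mul_le_mul_of_nonneg_right hw21 hJr.le)
    rwa [one_mul, Nat.floor_natCast] at h1
  have hgJ0 := hgJ 0 (by norm_num)
  have hgJ1 := hgJ 1 (by norm_num)
  obtain ⟨B, V, z, z', hBA', hmB, hcl, hCH⟩ := noat_m (W := ⌊w₂ * J⌋₊) hA' H.tri H.cls₀ H.cls₁
    (fun ω hω i hi => H.pos ω hω i (by omega)) (by
      have h1 := H.mass
      have h2 : (1 : ℝ) / 2 ≤ 1 - 1 / 4 := by norm_num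
      exact h2.trans h1) H.own₀ H.onl₀ H.fal hWW hWW' hWJ (by omega) (by omega)
    (b := (e + τ₂ / 16) * J) hH'
  have hBA : Sub B A := fun ω hω => hA'A ω (hBA' ω hω)
  have hSB : S.St τ₂ J F B := by
    refine S.mono (by linarith : τ + τ₂ / 2 ≤ τ₂) (S.res (by positivity) hSt hBA ?_)
    refine le_trans ?_ hmB
    have h1 : Real.exp (-(τ₂ / 4 * J)) ≤ Real.exp (-(2 * ((e + τ₂ / 16) * J))) := by
      refine Real.exp_le_exp.2 ?_
      have h2 : (e + τ₂ / 16) * J ≤ τ₂ / 8 * J :=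
        mul_le_mul_of_nonneg_right (by linarith) hJr.le
      linarith
    have h3 : Real.exp (-(τ₂ / 2 * J)) =
        Real.exp (-(τ₂ / 4 * J)) * Real.exp (-(τ₂ / 4 * J)) := by
      rw [← Real.exp_add]
      congr 1
      ring
    have h4 := hJb J j5
    have h5 := Real.exp_pos (-(τ₂ / 4 * J))
    rw [h3]
    calc Real.exp (-(τ₂ / 4 * J)) * Real.exp (-(τ₂ / 4 * J)) * Pe F.p A ≤
          Real.exp (-(τ₂ / 4 * J)) * (κ / 2) * Pe F.p A :=
          mul_le_mul_of_nonneg_right (mul_le_mul_of_nonneg_left h4 h5.le) hA.le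
      _ = Real.exp (-(τ₂ / 4 * J)) / 2 * (κ * Pe F.p A) := by ring
      _ ≤ Real.exp (-(τ₂ / 4 * J)) / 2 * Pe F.p A' :=
          mul_le_mul_of_nonneg_left hκA (by positivity)
      _ ≤ Real.exp (-(2 * ((e + τ₂ / 16) * J))) / 2 * Pe F.p A' :=
          mul_le_mul_of_nonneg_right (div_le_div_of_nonneg_right h1 (by norm_num)) hA'.le
  have hfin := (hEx J j1 F B hSB V z z' hcl).trans hCH
  -- the numbers
  have n0 := abs_le.1 (hg 0 (by norm_num))
  have n1 := abs_le.1 (hg 1 (by norm_num))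
  have n2 : (⌊2 * C * s * J⌋₊ : ℝ) ≤ 2 * C * s * J := Nat.floor_le (by positivity)
  have n3 : (mv - C * s) * J - 1 < ⌊(mv - C * s) * J⌋₊ := by
    have := Nat.lt_floor_add_one ((mv - C * s) * J)
    linarith
  have h1 : b * J ≤ ((J : ℝ) - g 0 + 3) + ((J : ℝ) + ⌊2 * C * s * J⌋₊ - ⌊(mv - C * s) * J⌋₊ -
      g 1 + 4) := by
    have h2 : b * Real.log 2 * J = b * J * Real.log 2 := by ring
    rw [h2] at hfin
    exact le_of_mul_le_mul_right hfin hl2
  have h2 : mv * J ≤ ((1 - β 0) + (1 - β 1) - b + 6 * C * s + ρ) * J := by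
    have h3 : s * J ≤ C * s * J := by
      have h4 : 0 ≤ s * J := by positivity
      nlinarith
    nlinarith
  have h3 := le_of_mul_le_mul_right h2 hJr
  rw [Finset.sum_range_succ, Finset.sum_range_one]
  exact h3

end Pool.NOA
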