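import Pool.Agent.H22.M.Stm
import Pool.Agent.H26.PLN.Iid
import Pool.Agent.H1.PLN.Stm
import Pool.Agent.H78.KST.OUT
import Pool.Agent.H62.OWN.Jvc

/-!
# No atoms of the last V-level: one member

`noat_m`: if the labels at another time are few bits given the exact point, then on a not too small
event the label at a fixed other place of the window `w₀` is a function of the exact point, and the
positions `(y, z)` are confined by the difference of the two sheets of `v`.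
-/

set_option autoImplicit false

namespace Pool.NOA

open Finset Real MvPolynomial
open Pool.Agent.H49.Ent Pool.Agent.H32.Dense Pool.STK Pool.KA Pool.KSAT Pool.K2S Pool.PB
  Pool.STAT Pool.GEN Pool.M3F Pool.KM7 Pool.S6C Pool.JPN
open Pool.PM (nx nt lev lfv)
open Pool.PLN (pA pe_ex pe_mono pe_nonneg pe_not pe_marg pe_le_add)

variable {m J : ℕ}

/-- The line with the larger window. -/
def crs (F : Fam m J) (w W : ℕ) (s : LnT F) : LnT F := (s.1, (s.2.1, s.2.2 / 2 ^ (W - w)))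

theorem slam_crs {F : Fam m J} {w W : ℕ} (hw : w ≤ W) (hJ : W ≤ J) (ω : F.Ω) :
    slam F w ω = crs F w W (slam F W ω) := by
  refine Prod.ext rfl (Prod.ext rfl ?_)
  show F.T1 w ω = F.T1 W ω / 2 ^ (W - w)
  unfold Fam.T1
  rw [Nat.div_div_eq_div_mul, ← pow_add]
  congr 2
  omega

/-- The number of integers in a small interval. -/
theorem log_pow_le (a b k : ℕ) (h : 2 * b + 1 ≤ 2 ^ a) :
    Real.log (2 * ((b : ℝ) * 2 ^ k) + 1) ≤ ((k : ℝ) + a) * Real.log 2 := by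
  have h1 : (2 : ℝ) * ((b : ℝ) * 2 ^ k) + 1 ≤ 2 ^ (k + a) := by
    have h2 : (2 * (b : ℝ) + 1) ≤ 2 ^ a := by exact_mod_cast h
    have h3 : (1 : ℝ) ≤ 2 ^ k := one_le_pow₀ one_le_two
    rw [pow_add]
    nlinarith
  have h4 : ((k : ℝ) + a) * Real.log 2 = Real.log (2 ^ (k + a)) := by
    rw [Real.log_pow]
    push_cast
    ring
  rw [h4]
  exact Real.log_le_log (by positivity) h1

/-- **One member**: the label at a fixed other place is a function of the exact point, on a not too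
small event, and it confines the positions. -/
theorem noat_m {F : Fam m J} {A : F.Ω → Prop} (hA : 0 < Pe F.p A) {c : ℕ → Fin m}
    {w₀ w₁ W h L : ℕ} {g : ℕ → ℕ} {V₀ V₁ : Type} {P : V₀ → ℕ → PN} {z₀ : PtT F → V₀}
    {z₀' : LnT F → V₀} {z₁ : PtT F → V₁} {z₁' : LnT F → V₁} {lf : V₁ → V₀ → Fin 4 → ℝ}
    {E : F.Ω × F.Ω → Prop} (htri : ∀ v, TriN (P v))
    (hc₀ : ∀ ω, A ω → z₀ (ptr F J ω) = z₀' (slam F w₀ ω))
    (hc₁ : ∀ ω, A ω → z₁ (ptr F J ω) = z₁' (slam F w₁ ω))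
    (hbox : ∀ ω, A ω → ∀ i < 2, |ntc F c P z₀ ω i| ≤ 1 / 2 ^ g i)
    (hmass : 1 / 2 ≤ Pe (P2 (pA F A) (slam F w₀)) E)
    (hown : ∀ e, E e → |nx F c P z₀ g e.1 2 -
      lfv F c P z₀ g w₀ (lf (z₁ (ptr F J e.1)) (z₀ (ptr F J e.1))) e.1| ≤ 1 / 2 ^ L)
    (honl : ∀ e, E e → |nx F c P z₀ g e.1 2 -
      lfv F c P z₀ g w₀ (lf (z₁ (ptr F J e.2)) (z₀ (ptr F J e.1))) e.1| ≤ 1 / 2 ^ L)
    (hfal : ∀ e, E e → 1 / 2 ^ h ≤ |lf (z₁ (ptr F J e.1)) (z₀ (ptr F J e.1)) 3 -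
      lf (z₁ (ptr F J e.2)) (z₀ (ptr F J e.1)) 3|)
    (hw : w₀ ≤ w₁) (hw₁ : w₁ ≤ W) (hW : W ≤ J) (hg0 : g 0 ≤ J) (hg1 : g 1 + L ≤ J + h)
    {b : ℝ} (hb : CH (P2 (pA F A) (slam F w₀)) (fun e => z₁ (ptr F J e.2))
      (fun e => ptr F J e.1) ≤ b) :
    ∃ (B : F.Ω → Prop) (V : Type) (z : PtT F → V) (z' : LnT F → V), Sub B A ∧
      Real.exp (-(2 * b)) / 2 * Pe F.p A ≤ Pe F.p B ∧
      (∀ ω, B ω → z (ptr F J ω) = z' (slam F W ω)) ∧
      CH (Pool.Agent.H49.Ent.cond F.p B True) (fun ω (i : Fin 2) => F.X J ω (c i))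
        (fun ω => (z' (slam F W ω), F.W ω)) ≤
          (((J : ℝ) - g 0 + 3) + ((J : ℝ) + h - L - g 1 + 4)) * Real.log 2 := by
  classical
  have hl : IsLaw (pA F A) := isLaw_cond F.isLaw hA
  have h0 := hl.nonneg
  obtain ⟨mu, hmu⟩ : ∃ mu, mu = P2 (pA F A) (slam F w₀) := ⟨_, rfl⟩
  have hml : IsLaw mu := by
    rw [hmu]
    exact P2_isLaw hl _
  have hm0 := hml.nonneg
  rw [← hmu] at hmass hb
  have hpos : ∀ e, 0 < mu e → A e.1 ∧ A e.2 ∧ slam F w₀ e.1 = slam F w₀ e.2 := by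
    intro e he
    rw [hmu] at he
    obtain ⟨h1, h2, h3⟩ := (P2_pos hl e).1 he
    exact ⟨of_eq_true ((cond_pos_iff F.isLaw.nonneg A True e.1).1 h1).2,
      of_eq_true ((cond_pos_iff F.isLaw.nonneg A True e.2).1 h2).2, h3⟩
  -- the labels
  obtain ⟨Y, hY⟩ : ∃ Y : F.Ω × F.Ω → V₁, Y = fun e => z₁ (ptr F J e.2) := ⟨_, rfl⟩
  obtain ⟨bb, hbb⟩ : ∃ bb : F.Ω × F.Ω → PtT F, bb = fun e => ptr F J e.1 := ⟨_, rfl⟩
  have hCH : CH mu Y bb ≤ b := by
    rw [hY, hbb]
    exact hb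
  have hb0 : 0 ≤ b := le_trans (CH_nonneg hm0 _ _) hb
  obtain ⟨φ, hφ⟩ := Pool.KST.out_select hml E Y bb (by linarith)
  have hφ' : Real.exp (-(2 * b)) / 2 ≤ Pe mu (fun v => E v ∧ Y v = φ (bb v)) := by
    refine le_trans ?_ hφ
    have h1 : CH mu Y bb / Pe mu E ≤ 2 * b := by
      rw [div_le_iff₀ (by linarith)]
      have h2 : (2 * b) * (1 / 2) ≤ 2 * b * Pe mu E :=
        mul_le_mul_of_nonneg_left hmass (by positivity)
      linarith
    have h2 : Real.exp (-(2 * b)) ≤ Real.exp (-(CH mu Y bb / Pe mu E)) :=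
      Real.exp_le_exp.2 (by linarith)
    have h3 := Real.exp_pos (-(2 * b))
    calc Real.exp (-(2 * b)) / 2 = 1 / 2 * Real.exp (-(2 * b)) := by ring
      _ ≤ Pe mu E * Real.exp (-(CH mu Y bb / Pe mu E)) :=
        mul_le_mul hmass h2 h3.le (by linarith)
  -- the selected sample
  have hne : Nonempty F.Ω := by
    by_contra hcon
    rw [not_nonempty_iff] at hcon
    have h1 := hl.sum_one
    rw [Finset.univ_eq_empty, Finset.sum_empty] at h1
    exact zero_ne_one h1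
  obtain ⟨R, hR⟩ : ∃ R : F.Ω → F.Ω → Prop, R = fun ω ω' => A ω ∧ A ω' ∧
    slam F w₀ ω = slam F w₀ ω' ∧ E (ω, ω') ∧ z₁ (ptr F J ω') = φ (ptr F J ω) := ⟨_, rfl⟩
  obtain ⟨sel, hsel⟩ := Pool.JVE.pair_sel (p := pA F A) h0 (slam F w₀) R
  -- the event
  obtain ⟨B, hB⟩ : ∃ B : F.Ω → Prop, B = fun ω => R ω (sel (slam F w₀ ω)) := ⟨_, rfl⟩
  rw [← hB] at hsel
  have hBA : Sub B A := by
    intro ω hω
    rw [hB, hR] at hω
    exact hω.1
  have hmB : Real.exp (-(2 * b)) / 2 * Pe F.p A ≤ Pe F.p B := by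
    have h1 : Pe mu (fun v => E v ∧ Y v = φ (bb v)) ≤ Pe mu (fun x => R x.1 x.2) := by
      refine pe_mono hm0 fun v hv hv2 => ?_
      obtain ⟨h3, h4, h5⟩ := hpos v hv
      rw [hR]
      refine ⟨h3, h4, h5, hv2.1, ?_⟩
      have h6 := hv2.2
      rw [hY, hbb] at h6
      exact h6
    have h2 : Pe mu (fun x => R x.1 x.2) ≤ Pe (pA F A) B := by
      rw [hmu]
      exact hsel
    have h3 : Pe (pA F A) B = Pe F.p B / Pe F.p A := by
      show Pe (Pool.Agent.H49.Ent.cond F.p A True) B = _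
      rw [Pe_cond]
      have h4 : (fun ω => A ω ∧ B ω) = B := by
        funext ω
        exact propext ⟨fun h => h.2, fun h => ⟨hBA ω h, h⟩⟩
      rw [h4]
    have h5 := ((hφ'.trans h1).trans h2).trans (le_of_eq h3)
    rwa [le_div_iff₀ hA] at h5
  have hBpos : 0 < Pe F.p B := by
    refine lt_of_lt_of_le ?_ hmB
    have := Real.exp_pos (-(2 * b))
    positivity
  -- the labels on the event
  obtain ⟨z', hz'⟩ : ∃ z' : LnT F → V₀ × (V₁ × V₁), z' = fun s =>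
    (z₀' (crs F w₀ W s), (z₁' (crs F w₁ W s), z₁ (ptr F J (sel (crs F w₀ W s))))) := ⟨_, rfl⟩
  have hcl : ∀ ω, B ω → ∃ ω', E (ω, ω') ∧ z₁ (ptr F J ω') = φ (ptr F J ω) ∧
      z₀ (ptr F J ω) = (z' (slam F W ω)).1 ∧ z₁ (ptr F J ω) = (z' (slam F W ω)).2.1 ∧
      z₁ (ptr F J ω') = (z' (slam F W ω)).2.2 := by
    intro ω hω
    have hAω := hBA ω hω
    rw [hB, hR] at hω
    obtain ⟨-, -, -, hE, h1⟩ := hω
    refine ⟨_, hE, h1, ?_, ?_, ?_⟩
    · rw [hz', hc₀ ω hAω, slam_crs (hw.trans hw₁) hW ω]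
    · rw [hz', hc₁ ω hAω, slam_crs hw₁ hW ω]
    · rw [hz', slam_crs (hw.trans hw₁) hW ω]
  refine ⟨B, V₀ × (V₁ × V₁), fun ξ => (z₀ ξ, (z₁ ξ, φ ξ)), z', hBA, hmB, ?_, ?_⟩
  · intro ω hω
    obtain ⟨ω', -, h1, h2, h3, h4⟩ := hcl ω hω
    refine Prod.ext h2 (Prod.ext h3 ?_)
    show φ (ptr F J ω) = _
    rw [← h1, h4]
  -- the confinement
  have hnu : IsLaw (Pool.Agent.H49.Ent.cond F.p B True) := isLaw_cond F.isLaw hBpos
  have hBv : ∀ ω, 0 < Pool.Agent.H49.Ent.cond F.p B True ω → B ω := fun ω hω =>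
    of_eq_true ((cond_pos_iff F.isLaw.nonneg B True ω).1 hω).2
  have hJ0 : (0 : ℝ) < 2 ^ J := by positivity
  obtain ⟨bd, hbd⟩ : ∃ bd : ℕ → ℝ, bd = fun i => if i = 0 then ((2 : ℕ) : ℝ) * 2 ^ (J - g 0) else
    ((4 : ℕ) : ℝ) * 2 ^ (J + h - L - g 1) := ⟨_, rfl⟩
  have key := Ful.ch_vec hnu (fun ω (i : Fin 2) => F.X J ω (c i))
    (fun ω => (z' (slam F W ω), F.W ω)) bd (by
      intro i ω ω' hω hω' he hj
      have hzz : z' (slam F W ω) = z' (slam F W ω') := (Prod.ext_iff.1 he).1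
      have hWW : F.W ω = F.W ω' := (Prod.ext_iff.1 he).2
      have hT : F.T ω = F.T ω' := (Prod.ext_iff.1 hWW).1
      obtain ⟨ω₂, hv1, hv2, hv3, hv4, hv5⟩ := hcl ω (hBv ω hω)
      obtain ⟨ω₂', hv1', hv2', hv3', hv4', hv5'⟩ := hcl ω' (hBv ω' hω')
      have hz00 : z₀ (ptr F J ω) = z₀ (ptr F J ω') := by rw [hv3, hv3', hzz]
      have hz11 : z₁ (ptr F J ω) = z₁ (ptr F J ω') := by rw [hv4, hv4', hzz]
      have hz22 : z₁ (ptr F J ω₂) = z₁ (ptr F J ω₂') := by rw [hv5, hv5', hzz]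
      have hdiff : ∀ i : ℕ, (∀ j < i, F.X J ω (c j) = F.X J ω' (c j)) →
          ntc F c P z₀ ω i - ntc F c P z₀ ω' i =
            ((F.X J ω (c i) : ℝ) - F.X J ω' (c i)) / 2 ^ J := by
        intro i hi
        have h1 : eval (px c (ptr F J ω)) (P (z₀ (ptr F J ω')) (i + 1)) =
            eval (px c (ptr F J ω')) (P (z₀ (ptr F J ω')) (i + 1)) :=
          eval_px (htri _ _) hT hi
        unfold ntc
        rw [px_succ, px_succ, hz00, h1]
        have h1 : (ptr F J ω).1 (c i) = F.X J ω (c i) := rfl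
        have h2 : (ptr F J ω').1 (c i) = F.X J ω' (c i) := rfl
        rw [h1, h2]
        ring
      have hmain : ∀ (i : ℕ) (k M : ℕ), (∀ j < i, F.X J ω (c j) = F.X J ω' (c j)) → k ≤ J →
          |ntc F c P z₀ ω i - ntc F c P z₀ ω' i| ≤ M / 2 ^ k →
          |((F.X J ω (c i) - F.X J ω' (c i) : ℤ) : ℝ)| ≤ (M : ℝ) * 2 ^ (J - k) := by
        intro i k M hi hk hle
        rw [hdiff i hi, abs_div, abs_of_pos hJ0, div_le_iff₀ hJ0] at hle
        push_cast
        refine hle.trans (le_of_eq ?_)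
        have h1 : (2 : ℝ) ^ J = 2 ^ (J - k) * 2 ^ k := by
          rw [← pow_add]
          congr 1
          omega
        rw [h1]
        have h2 : (2 : ℝ) ^ k ≠ 0 := by positivity
        field_simp
      rw [hbd]
      fin_cases i
      · -- the first coordinate
        have h1 := hbox ω (hBA ω (hBv ω hω)) 0 (by norm_num)
        have h2 := hbox ω' (hBA ω' (hBv ω' hω')) 0 (by norm_num)
        have h3 : |ntc F c P z₀ ω 0 - ntc F c P z₀ ω' 0| ≤ ((2 : ℕ) : ℝ) / 2 ^ g 0 := by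
          have h4 := abs_sub (ntc F c P z₀ ω 0) (ntc F c P z₀ ω' 0)
          have h5 : ((2 : ℕ) : ℝ) / 2 ^ g 0 = 1 / 2 ^ g 0 + 1 / 2 ^ g 0 := by
            push_cast
            ring
          rw [h5]
          linarith
        have h6 := hmain 0 (g 0) 2 (fun j hj => absurd hj (Nat.not_lt_zero j)) hg0 h3
        simpa using h6
      · -- the second coordinate
        have hX0 : ∀ j < 1, F.X J ω (c j) = F.X J ω' (c j) := by
          intro j hj2
          have h1 : j = 0 := by omega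
          subst h1
          exact hj ⟨0, by norm_num⟩ (by decide)
        have hy : nx F c P z₀ g ω 0 = nx F c P z₀ g ω' 0 := by
          unfold nx
          rw [ntc_eq htri hz00 hT (i := 0) (fun j hj => hX0 j (by omega))]
        have ht : nt F w₀ ω = nt F w₀ ω' := by
          unfold nt
          have h1 : F.t ω = F.t ω' := by
            unfold Fam.t
            rw [hT]
          have h2 : F.T1 w₀ ω = F.T1 w₀ ω' := by
            unfold Fam.T1
            rw [hT]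
          rw [h1, h2]
        have a1 := hown _ hv1
        have a2 := honl _ hv1
        have a3 := hfal _ hv1
        have b1 := hown _ hv1'
        have b2 := honl _ hv1'
        simp only at a1 a2 a3 b1 b2
        rw [← hz00, ← hz11] at b1
        rw [← hz00, ← hz22] at b2
        obtain ⟨q, hq⟩ : ∃ q, q = lf (z₁ (ptr F J ω)) (z₀ (ptr F J ω)) := ⟨_, rfl⟩
        obtain ⟨q', hq'⟩ : ∃ q', q' = lf (z₁ (ptr F J ω₂)) (z₀ (ptr F J ω)) := ⟨_, rfl⟩
        rw [← hq] at a1 a3 b1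
        rw [← hq'] at a2 a3 b2
        unfold lfv lev at a1 a2 b1 b2
        rw [← ht, ← hy] at b1 b2
        obtain ⟨x, hx⟩ : ∃ x, x = nx F c P z₀ g ω 1 := ⟨_, rfl⟩
        obtain ⟨x', hx'⟩ : ∃ x', x' = nx F c P z₀ g ω' 1 := ⟨_, rfl⟩
        rw [← hx] at a1 a2
        rw [← hx'] at b1 b2
        have hd : |(q 3 - q' 3) * (x - x')| ≤ 4 / 2 ^ L := by
          have e1 : (q 3 - q' 3) * (x - x') =
              -(nx F c P z₀ g ω 2 - (q 0 + q 1 * nt F w₀ ω + q 2 * nx F c P z₀ g ω 0 + q 3 * x)) +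
              (nx F c P z₀ g ω 2 -
                (q' 0 + q' 1 * nt F w₀ ω + q' 2 * nx F c P z₀ g ω 0 + q' 3 * x)) +
              (nx F c P z₀ g ω' 2 -
                (q 0 + q 1 * nt F w₀ ω + q 2 * nx F c P z₀ g ω 0 + q 3 * x')) -
              (nx F c P z₀ g ω' 2 -
                (q' 0 + q' 1 * nt F w₀ ω + q' 2 * nx F c P z₀ g ω 0 + q' 3 * x')) := by ring
          rw [e1]
          have e2 : (4 : ℝ) / 2 ^ L = 1 / 2 ^ L + 1 / 2 ^ L + 1 / 2 ^ L + 1 / 2 ^ L := by ring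
          rw [e2]
          rw [abs_le] at a1 a2 b1 b2 ⊢
          constructor <;> linarith [a1.1, a1.2, a2.1, a2.2, b1.1, b1.2, b2.1, b2.2]
        have hxx : |x - x'| ≤ 4 * 2 ^ h / 2 ^ L := by
          rw [abs_mul] at hd
          have h1 : 1 / 2 ^ h * |x - x'| ≤ 4 / 2 ^ L :=
            (mul_le_mul_of_nonneg_right a3 (abs_nonneg _)).trans hd
          have h2 : (0 : ℝ) < 2 ^ h := by positivity
          calc |x - x'| = 2 ^ h * (1 / 2 ^ h * |x - x'|) := by field_simp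
            _ ≤ 2 ^ h * (4 / 2 ^ L) := mul_le_mul_of_nonneg_left h1 h2.le
            _ = _ := by ring
        have hnn : |ntc F c P z₀ ω 1 - ntc F c P z₀ ω' 1| * 2 ^ (g 1 + L) ≤ 4 * 2 ^ h := by
          have h1 : x - x' = 2 ^ g 1 * (ntc F c P z₀ ω 1 - ntc F c P z₀ ω' 1) := by
            rw [hx, hx']
            unfold nx
            ring
          have h2 : (0 : ℝ) < 2 ^ g 1 := by positivity
          rw [h1, abs_mul, abs_of_pos h2, le_div_iff₀ (by positivity)] at hxx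
          rw [pow_add]
          linarith
        rw [hdiff 1 hX0, abs_div, abs_of_pos hJ0] at hnn
        push_cast
        have h5 : (2 : ℝ) ^ (J + h) = 2 ^ (J + h - L - g 1) * 2 ^ (g 1 + L) := by
          rw [← pow_add]
          congr 1
          omega
        have h6 : (0 : ℝ) < 2 ^ (g 1 + L) := by positivity
        have h7 : |(F.X J ω (c 1) : ℝ) - F.X J ω' (c 1)| * 2 ^ (g 1 + L) ≤
            4 * 2 ^ (J + h) := by
          have h8 : |(F.X J ω (c 1) : ℝ) - F.X J ω' (c 1)| * 2 ^ (g 1 + L) =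
              |(F.X J ω (c 1) : ℝ) - F.X J ω' (c 1)| / 2 ^ J * 2 ^ (g 1 + L) * 2 ^ J := by
            field_simp
          rw [h8]
          calc _ ≤ 4 * 2 ^ h * 2 ^ J := mul_le_mul_of_nonneg_right hnn hJ0.le
            _ = 4 * 2 ^ (J + h) := by
              rw [pow_add]
              ring
        rw [h5, ← mul_assoc] at h7
        have h9 := le_of_mul_le_mul_right h7 h6
        simpa using h9)
  refine key.trans ?_
  rw [Finset.sum_range_succ, Finset.sum_range_one, hbd]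
  simp only
  rw [if_pos trivial, if_neg one_ne_zero]
  have k1 := log_pow_le 3 2 (J - g 0) (by norm_num)
  have k2 := log_pow_le 4 4 (J + h - L - g 1) (by norm_num)
  have k3 : ((J - g 0 : ℕ) : ℝ) = (J : ℝ) - g 0 := by
    rw [Nat.cast_sub hg0]
  have k4 : ((J + h - L - g 1 : ℕ) : ℝ) = (J : ℝ) + h - L - g 1 := by
    have h1 : L + g 1 ≤ J + h := by omega
    rw [Nat.sub_sub, Nat.cast_sub h1]
    push_cast
    ring
  rw [k3] at k1
  rw [k4] at k2
  push_cast at k1 k2 ⊢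
  linarith

end Pool.NOA
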